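import Mathlib

/-!
# A pointwise inequality with nine multipliers

Same variables as in `Helper82.CW.pointwise`: `f` the odd part, `Q` the squared gradient, `t` the
trace and `d` the determinant of the Hessian, for a body of width `1` in a ball of radius `R` with
`R ^ 2 - 1 / 4 ≤ 0.11446`.
-/

namespace Helper43.Far

/-- coefficient of `-d` -/
theorem gam_nonneg {g Q : ℝ} (hg : 0 ≤ g) (hQ : 0 ≤ Q) (h : g + Q ≤ 0.11446) :
    0 ≤ 0.0659 - 0.48832 * Q - 0.7632 * Q ^ 2 - 0.52144 * g ^ 2 + 15.8368 * (g ^ 2 * Q) +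
      11.416 * g ^ 4 := by
  have h1 : 0 ≤ 15.8368 * (g ^ 2 * Q) := by positivity
  have h2 : 0 ≤ 11.416 * g ^ 4 := by positivity
  have hQ1 : Q ≤ 0.11446 - g := by linarith
  have h3 : Q ^ 2 ≤ (0.11446 - g) ^ 2 := pow_le_pow_left₀ hQ hQ1 2
  have h4 : g * g ≤ g * 0.11446 := mul_le_mul_of_nonneg_left (by linarith) hg
  nlinarith

/-- coefficient of the trace -/
theorem bet_nonneg {g Q : ℝ} (hg : 0 ≤ g) (hQ : 0 ≤ Q) (h : g + Q ≤ 0.11446) :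
    0 ≤ 0.34977 - 1.02632 * Q + 9.7072 * Q ^ 2 - 1.7796 * g ^ 2 + 45.744 * (g ^ 2 * Q) +
      21.3 * g ^ 4 := by
  have h1 : 0 ≤ 45.744 * (g ^ 2 * Q) := by positivity
  have h2 : 0 ≤ 21.3 * g ^ 4 := by positivity
  have h3 : 0 ≤ 9.7072 * Q ^ 2 := by positivity
  have h4 : g * g ≤ 0.11446 * 0.11446 := mul_le_mul (by linarith) (by linarith) hg (by norm_num)
  nlinarith

theorem A_nonneg {Q : ℝ} (hQ : 0 ≤ Q) (h : Q ≤ 0.11446) :
    0 ≤ 0.000019 + 0.0048 * Q - 0.192 * Q ^ 2 + 1.916 * Q ^ 3 := by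
  have h1 : 0.000019 + 0.0048 * Q - 0.192 * Q ^ 2 + 1.916 * Q ^ 3 =
      1.916 * Q * (Q - 0.0501) ^ 2 + (0.000019 - 0.00000917916 * Q - 0.0000168 * Q ^ 2) := by
    ring
  have h2 : 0 ≤ 1.916 * Q * (Q - 0.0501) ^ 2 := by positivity
  have h3 : Q ^ 2 ≤ 0.11446 ^ 2 := pow_le_pow_left₀ hQ h 2
  rw [h1]
  nlinarith

theorem disc_nonneg {x : ℝ} (hx : 0 ≤ x) (hx1 : x ≤ 0.0625) :
    0 ≤ 4 * (0.000019 + 0.0048 * (0.052 + x) - 0.192 * (0.052 + x) ^ 2 +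
        1.916 * (0.052 + x) ^ 3) *
        (11.786 + 249.6 * (0.052 + x) - 483 * (0.11446 - (0.052 + x)) ^ 2) -
      (0.4822 - 11.5948 * (0.052 + x) + 51.492 * (0.052 + x) ^ 2) ^ 2 := by
  have h1 : 0 ≤ x ^ 3 * (949 - 483 * x - 3702 * x ^ 2 - 900) := by
    apply mul_nonneg (by positivity)
    nlinarith
  have h2 : 0 ≤ x * (900 * x ^ 2 - 30.63 * x + 0.2885) := by
    apply mul_nonneg hx
    nlinarith [sq_nonneg (x - 0.01702)]
  have h3 : 0 ≤ x ^ 4 := by positivity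
  have h4 : 0 ≤ x ^ 5 := by positivity
  have h5 : 0 ≤ x ^ 3 := by positivity
  have h6 : 0 ≤ x ^ 2 := by positivity
  nlinarith

/-- state with vanishing trace -/
theorem P0_nonneg {g Q : ℝ} (hg : 0 ≤ g) (hQ : 0 ≤ Q) (h : g + Q ≤ 0.11446) :
    0 ≤ 0.000019 + 0.0048 * Q - 0.192 * Q ^ 2 + 1.916 * Q ^ 3 +
      g ^ 2 * (0.4822 - 11.5948 * Q + 51.492 * Q ^ 2) + g ^ 4 * (11.786 + 249.6 * Q) -
      483 * g ^ 6 := by
  have hA := A_nonneg hQ (by linarith)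
  set F := g ^ 2 with hF
  have hF0 : 0 ≤ F := sq_nonneg g
  have hF1 : F ≤ (0.11446 - Q) ^ 2 := pow_le_pow_left₀ hg (by linarith) 2
  have e4 : g ^ 4 = F ^ 2 := by rw [hF]; ring
  have e6 : g ^ 6 = F ^ 3 := by rw [hF]; ring
  rw [e4, e6]
  set C := 11.786 + 249.6 * Q - 483 * (0.11446 - Q) ^ 2 with hC
  have hC0 : 0 < C := by
    have : (0.11446 - Q) ^ 2 ≤ 0.11446 ^ 2 := pow_le_pow_left₀ (by linarith) (by linarith) 2
    rw [hC]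
    nlinarith
  have h1 : 0 ≤ 483 * F ^ 2 * ((0.11446 - Q) ^ 2 - F) := by
    have : 0 ≤ (0.11446 - Q) ^ 2 - F := by linarith
    positivity
  set A := 0.000019 + 0.0048 * Q - 0.192 * Q ^ 2 + 1.916 * Q ^ 3 with hAdef
  set B := 0.4822 - 11.5948 * Q + 51.492 * Q ^ 2 with hB
  have h2 : A + F * B + C * F ^ 2 ≤ A + F * B + F ^ 2 * (11.786 + 249.6 * Q) - 483 * F ^ 3 := by
    rw [hC]
    nlinarith
  refine le_trans ?_ h2
  rcases le_total Q 0.052 with hq | hq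
  · have hB0 : 0 ≤ B := by
      rw [hB]
      nlinarith
    positivity
  · have hD := disc_nonneg (x := Q - 0.052) (by linarith) (by linarith)
    have e : (0.052 : ℝ) + (Q - 0.052) = Q := by ring
    rw [e, ← hAdef, ← hB, ← hC] at hD
    have h3 : 4 * C * (A + F * B + C * F ^ 2) = (2 * C * F + B) ^ 2 + (4 * A * C - B ^ 2) := by
      ring
    by_contra hneg
    push Not at hneg
    have h4 : 4 * C * (A + F * B + C * F ^ 2) < 0 := mul_neg_of_pos_of_neg (by positivity) hneg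
    have h5 : 0 ≤ (2 * C * F + B) ^ 2 := sq_nonneg _
    linarith

/-- one variable polynomial -/
theorem p_nonneg {g : ℝ} (hg : 0 ≤ g) (h : g ≤ 0.11446) :
    0 ≤ (g ^ 2 - 0.134 * g + 0.00432) ^ 2 * (48.852892 - 400.344 * g - 483 * g ^ 2) +
      (0.00001849 - 0.0000776 * g + 0.001669 * g ^ 2 - 0.009681 * g ^ 3) := by
  have hr : 0.0000169 ≤ 0.00001849 - 0.0000776 * g + 0.001669 * g ^ 2 - 0.009681 * g ^ 3 := by
    have h1 : g ^ 3 ≤ 0.11446 * g ^ 2 := by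
      have : g ^ 3 = g * g ^ 2 := by ring
      rw [this]
      exact mul_le_mul_of_nonneg_right h (sq_nonneg g)
    nlinarith [sq_nonneg (g - 0.0691)]
  rcases le_total g 0.106 with h1 | h1
  · have hq : 0 ≤ 48.852892 - 400.344 * g - 483 * g ^ 2 := by nlinarith
    have : 0 ≤ (g ^ 2 - 0.134 * g + 0.00432) ^ 2 * (48.852892 - 400.344 * g - 483 * g ^ 2) := by
      positivity
    linarith
  · have hm0 : 0 ≤ g ^ 2 - 0.134 * g + 0.00432 := by nlinarith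
    have hm1 : g ^ 2 - 0.134 * g + 0.00432 ≤ 0.002084 := by nlinarith
    have hm : (g ^ 2 - 0.134 * g + 0.00432) ^ 2 ≤ 0.002084 ^ 2 := pow_le_pow_left₀ hm0 hm1 2
    have hq : -3.2984 ≤ 48.852892 - 400.344 * g - 483 * g ^ 2 := by nlinarith
    have h2 : 0 ≤ (g ^ 2 - 0.134 * g + 0.00432) ^ 2 *
        (48.852892 - 400.344 * g - 483 * g ^ 2 + 3.2984) :=
      mul_nonneg (sq_nonneg _) (by linarith)
    nlinarith

/-- umbilic state -/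
theorem P1_nonneg {g Q : ℝ} (hg : 0 ≤ g) (hQ : 0 ≤ Q) (h : g + Q ≤ 0.11446) :
    0 ≤ 0.032969 - 0.23936 * Q - 0.5736 * Q ^ 2 + 1.916 * Q ^ 3 -
      g * (0.34977 - 1.02632 * Q + 9.7072 * Q ^ 2) +
      g ^ 2 * (0.22148 - 3.6764 * Q + 51.492 * Q ^ 2) + g ^ 3 * (1.7796 - 45.744 * Q) +
      g ^ 4 * (17.494 + 249.6 * Q) - 21.3 * g ^ 5 - 483 * g ^ 6 := by
  have hp := p_nonneg hg (by linarith : g ≤ 0.11446)
  set T := 0.11446 - g with hT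
  have hT0 : 0 ≤ T := by linarith
  have hTQ : Q ≤ T := by linarith
  have hT1 : T ≤ 0.11446 := by linarith
  have hD : 0 ≤ 0.23936 - 1.02632 * g + 3.6764 * g ^ 2 + 45.744 * g ^ 3 - 249.6 * g ^ 4 +
      (0.5736 + 9.7072 * g - 51.492 * g ^ 2) * (Q + T) - 1.916 * (Q ^ 2 + Q * T + T ^ 2) := by
    have h1 : 0 ≤ 45.744 * g ^ 3 := by positivity
    have h2 : g ^ 4 ≤ 0.11446 ^ 4 := pow_le_pow_left₀ hg (by linarith) 4
    have h3 : 0 ≤ 3.6764 * g ^ 2 := by positivity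
    have h4 : 0 ≤ (9.7072 * g - 51.492 * g ^ 2) * (Q + T) := by
      apply mul_nonneg
      · nlinarith
      · linarith
    have h5 : Q ^ 2 + Q * T + T ^ 2 ≤ 0.22892 * (Q + T) := by
      have : (Q + T) * (Q + T) ≤ 0.22892 * (Q + T) :=
        mul_le_mul_of_nonneg_right (by linarith) (by linarith)
      nlinarith [mul_nonneg hQ hT0]
    nlinarith
  have h6 : 0 ≤ (T - Q) * (0.23936 - 1.02632 * g + 3.6764 * g ^ 2 + 45.744 * g ^ 3 -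
      249.6 * g ^ 4 + (0.5736 + 9.7072 * g - 51.492 * g ^ 2) * (Q + T) -
      1.916 * (Q ^ 2 + Q * T + T ^ 2)) := mul_nonneg (by linarith) hD
  have e : 0.032969 - 0.23936 * Q - 0.5736 * Q ^ 2 + 1.916 * Q ^ 3 -
      g * (0.34977 - 1.02632 * Q + 9.7072 * Q ^ 2) +
      g ^ 2 * (0.22148 - 3.6764 * Q + 51.492 * Q ^ 2) + g ^ 3 * (1.7796 - 45.744 * Q) +
      g ^ 4 * (17.494 + 249.6 * Q) - 21.3 * g ^ 5 - 483 * g ^ 6 =
      (T - Q) * (0.23936 - 1.02632 * g + 3.6764 * g ^ 2 + 45.744 * g ^ 3 -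
        249.6 * g ^ 4 + (0.5736 + 9.7072 * g - 51.492 * g ^ 2) * (Q + T) -
        1.916 * (Q ^ 2 + Q * T + T ^ 2)) +
      (0.032969 - 0.23936 * T - 0.5736 * T ^ 2 + 1.916 * T ^ 3 -
        g * (0.34977 - 1.02632 * T + 9.7072 * T ^ 2) +
        g ^ 2 * (0.22148 - 3.6764 * T + 51.492 * T ^ 2) + g ^ 3 * (1.7796 - 45.744 * T) +
        g ^ 4 * (17.494 + 249.6 * T) - 21.3 * g ^ 5 - 483 * g ^ 6) := by
    ring
  have h7 : 0 ≤ 0.032969 - 0.23936 * T - 0.5736 * T ^ 2 + 1.916 * T ^ 3 -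
        g * (0.34977 - 1.02632 * T + 9.7072 * T ^ 2) +
        g ^ 2 * (0.22148 - 3.6764 * T + 51.492 * T ^ 2) + g ^ 3 * (1.7796 - 45.744 * T) +
        g ^ 4 * (17.494 + 249.6 * T) - 21.3 * g ^ 5 - 483 * g ^ 6 := by
    have h8 : 0 ≤ g ^ 2 := sq_nonneg g
    have h9 : 0 ≤ g ^ 3 := by positivity
    refine hp.trans ?_
    rw [hT]
    nlinarith
  rw [e]
  linarith

/-- **The pointwise inequality.** -/
theorem pointwise {f Q t d : ℝ} (hQ : 0 ≤ Q) (hfQ : |f| + Q ≤ 0.11446) (ht : |t| ≤ 1)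
    (hd : |t| / 2 - 1 / 4 ≤ d) :
    -d + 0.233525 * (4 * d - 2 * f * t) + 0.05864 * (2 * Q + 2 * f * t - 6 * f ^ 2) +
      0.03052 * (16 * Q * d - 8 * f ^ 2 * d - 4 * f * Q * t) +
      0.0212 * (36 * Q ^ 2 * d - 24 * f ^ 2 * Q * d - 6 * f * Q ^ 2 * t) +
      0.1914 * (6 * f * Q * t + 4 * f ^ 2 * d + 2 * Q ^ 2 - 6 * f ^ 3 * t - 6 * f ^ 2 * Q) -
      0.958 * (10 * f * Q ^ 2 * t + 16 * f ^ 2 * Q * d - 8 * f ^ 4 * d + 2 * Q ^ 3 -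
        12 * f ^ 3 * Q * t - 6 * f ^ 2 * Q ^ 2) +
      0.732 * (12 * f ^ 2 * Q + 4 * f ^ 3 * t - 20 * f ^ 4) -
      4.77 * (12 * f ^ 3 * Q * t + 4 * f ^ 4 * d + 12 * f ^ 2 * Q ^ 2 - 10 * f ^ 5 * t -
        20 * f ^ 4 * Q) -
      11.5 * (30 * f ^ 4 * Q + 6 * f ^ 5 * t - 42 * f ^ 6) ≤ 0.016494 := by
  set g := |f| with hg
  have hg0 : 0 ≤ g := abs_nonneg f
  have hg2 : f ^ 2 = g ^ 2 := (sq_abs f).symm
  set τ := |t| with hτ
  have hτ0 : 0 ≤ τ := abs_nonneg t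
  have hγ := gam_nonneg hg0 hQ hfQ
  have hβ := bet_nonneg hg0 hQ hfQ
  have hP0 := P0_nonneg hg0 hQ hfQ
  have hP1 := P1_nonneg hg0 hQ hfQ
  set γ := 0.0659 - 0.48832 * Q - 0.7632 * Q ^ 2 - 0.52144 * g ^ 2 + 15.8368 * (g ^ 2 * Q) +
      11.416 * g ^ 4 with hγd
  set β := 0.34977 - 1.02632 * Q + 9.7072 * Q ^ 2 - 1.7796 * g ^ 2 + 45.744 * (g ^ 2 * Q) +
      21.3 * g ^ 4 with hβd
  have hft : -(f * t) ≤ g * τ := by
    rw [hg, hτ, ← abs_mul]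
    exact neg_le_abs _
  have h1 : -(γ * d) ≤ -(γ * (τ / 2 - 1 / 4)) := by
    have := mul_le_mul_of_nonneg_left hd hγ
    linarith
  have h2 : -(f * t) * β ≤ g * τ * β := mul_le_mul_of_nonneg_right hft hβ
  have h3 : 0 ≤ (1 - τ) * (0.000019 + 0.0048 * Q - 0.192 * Q ^ 2 + 1.916 * Q ^ 3 +
      g ^ 2 * (0.4822 - 11.5948 * Q + 51.492 * Q ^ 2) + g ^ 4 * (11.786 + 249.6 * Q) -
      483 * g ^ 6) := mul_nonneg (by linarith) hP0
  have h4 := mul_nonneg hτ0 hP1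
  have e : -d + 0.233525 * (4 * d - 2 * f * t) + 0.05864 * (2 * Q + 2 * f * t - 6 * f ^ 2) +
      0.03052 * (16 * Q * d - 8 * f ^ 2 * d - 4 * f * Q * t) +
      0.0212 * (36 * Q ^ 2 * d - 24 * f ^ 2 * Q * d - 6 * f * Q ^ 2 * t) +
      0.1914 * (6 * f * Q * t + 4 * f ^ 2 * d + 2 * Q ^ 2 - 6 * f ^ 3 * t - 6 * f ^ 2 * Q) -
      0.958 * (10 * f * Q ^ 2 * t + 16 * f ^ 2 * Q * d - 8 * f ^ 4 * d + 2 * Q ^ 3 -
        12 * f ^ 3 * Q * t - 6 * f ^ 2 * Q ^ 2) +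
      0.732 * (12 * f ^ 2 * Q + 4 * f ^ 3 * t - 20 * f ^ 4) -
      4.77 * (12 * f ^ 3 * Q * t + 4 * f ^ 4 * d + 12 * f ^ 2 * Q ^ 2 - 10 * f ^ 5 * t -
        20 * f ^ 4 * Q) -
      11.5 * (30 * f ^ 4 * Q + 6 * f ^ 5 * t - 42 * f ^ 6) =
      -(γ * d) + -(f * t) * β + (0.11728 * Q + 0.3828 * Q ^ 2 - 1.916 * Q ^ 3 +
        g ^ 2 * (-0.35184 + 7.6356 * Q - 51.492 * Q ^ 2) + g ^ 4 * (-14.64 - 249.6 * Q) +
        483 * g ^ 6) := by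
    have e2 : f ^ 4 = g ^ 4 := by
      have : f ^ 4 = (f ^ 2) ^ 2 := by ring
      rw [this, hg2]; ring
    have e3 : f ^ 6 = g ^ 6 := by
      have : f ^ 6 = (f ^ 2) ^ 3 := by ring
      rw [this, hg2]; ring
    have e4 : f ^ 3 = f * g ^ 2 := by
      have : f ^ 3 = f * f ^ 2 := by ring
      rw [this, hg2]
    have e5 : f ^ 5 = f * g ^ 4 := by
      have : f ^ 5 = f * f ^ 4 := by ring
      rw [this, e2]
    rw [e2, e3, e4, e5, hg2, hγd, hβd]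
    ring
  have e7 : 0.016494 - (-(γ * (τ / 2 - 1 / 4)) + g * τ * β +
        (0.11728 * Q + 0.3828 * Q ^ 2 - 1.916 * Q ^ 3 +
        g ^ 2 * (-0.35184 + 7.6356 * Q - 51.492 * Q ^ 2) + g ^ 4 * (-14.64 - 249.6 * Q) +
        483 * g ^ 6)) =
      (1 - τ) * (0.000019 + 0.0048 * Q - 0.192 * Q ^ 2 + 1.916 * Q ^ 3 +
        g ^ 2 * (0.4822 - 11.5948 * Q + 51.492 * Q ^ 2) + g ^ 4 * (11.786 + 249.6 * Q) -
        483 * g ^ 6) +
      τ * (0.032969 - 0.23936 * Q - 0.5736 * Q ^ 2 + 1.916 * Q ^ 3 -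
        g * (0.34977 - 1.02632 * Q + 9.7072 * Q ^ 2) +
        g ^ 2 * (0.22148 - 3.6764 * Q + 51.492 * Q ^ 2) + g ^ 3 * (1.7796 - 45.744 * Q) +
        g ^ 4 * (17.494 + 249.6 * Q) - 21.3 * g ^ 5 - 483 * g ^ 6) := by
    rw [hγd, hβd]
    ring
  rw [e]
  linarith

end Helper43.Far
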